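import Mathlib

/-!
# Positive association on permutations, via the lattice of increasing sequences

A permutation of `Fin (l + r)` is cut into its left block of `l` entries and its right block of
`r` entries.  It is described by the increasing sequence `f` of the values in the left block and
by the two patterns.  The weight `∏_{k < l} g (a k)` only depends on `f` and is log-modular on the
distributive lattice of strictly increasing sequences, so that the FKG inequality applies.
-/

open Finset Equiv

namespace Pool.Agent.Q231.Perm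

/-- A real function on permutations which does not decrease when the entries of an inversion are
exchanged. -/
def UpMono {n : ℕ} (F : Perm (Fin n) → ℝ) : Prop :=
  ∀ a : Perm (Fin n), ∀ i j : Fin n, i < j → a⁻¹ j < a⁻¹ i → F a ≤ F (swap i j * a)

/-- Positive association, functional form. -/
def PAf {n : ℕ} (w : Perm (Fin n) → ℝ) : Prop :=
  ∀ F G : Perm (Fin n) → ℝ, UpMono F → UpMono G → (∀ a, 0 ≤ F a) → (∀ a, 0 ≤ G a) →
    (∑ a, w a * F a) * (∑ a, w a * G a) ≤ (∑ a, w a) * ∑ a, w a * (F a * G a)

variable {l r : ℕ}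

/-- The permutation acting by `ρ` on the left block and by `τ` on the right block. -/
def block (ρ : Perm (Fin l)) (τ : Perm (Fin r)) : Perm (Fin (l + r)) :=
  finSumFinEquiv.permCongr (Perm.sumCongr ρ τ)

@[simp] lemma block_left (ρ : Perm (Fin l)) (τ : Perm (Fin r)) (i : Fin l) :
    block ρ τ (Fin.castAdd r i) = Fin.castAdd r (ρ i) := by
  simp [block, Equiv.permCongr_apply]

@[simp] lemma block_right (ρ : Perm (Fin l)) (τ : Perm (Fin r)) (i : Fin r) :
    block ρ τ (Fin.natAdd l i) = Fin.natAdd l (τ i) := by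
  simp [block, Equiv.permCongr_apply]

lemma perm_ext {a b : Perm (Fin (l + r))}
    (h1 : ∀ i : Fin l, a (Fin.castAdd r i) = b (Fin.castAdd r i))
    (h2 : ∀ i : Fin r, a (Fin.natAdd l i) = b (Fin.natAdd l i)) : a = b := by
  ext x
  refine Fin.addCases (fun i => ?_) (fun i => ?_) x
  · rw [h1]
  · rw [h2]

lemma block_mul (ρ ρ' : Perm (Fin l)) (τ τ' : Perm (Fin r)) :
    block ρ τ * block ρ' τ' = block (ρ * ρ') (τ * τ') := by
  apply perm_ext <;> intro i <;> simp

lemma block_one : block (1 : Perm (Fin l)) (1 : Perm (Fin r)) = 1 := by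
  apply perm_ext <;> intro i <;> simp

/-- Both blocks are increasing. -/
def Shuffle (γ : Perm (Fin (l + r))) : Prop :=
  StrictMono (fun i : Fin l => γ (Fin.castAdd r i)) ∧
    StrictMono (fun i : Fin r => γ (Fin.natAdd l i))

lemma range_right (γ : Perm (Fin (l + r))) :
    Set.range (fun i : Fin r => γ (Fin.natAdd l i)) =
      (Set.range (fun i : Fin l => γ (Fin.castAdd r i)))ᶜ := by
  ext x
  constructor
  · rintro ⟨i, rfl⟩ ⟨j, hj⟩
    have := γ.injective hj
    have h2 := congrArg Fin.val this
    simp at h2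
    omega
  · intro hx
    obtain ⟨y, rfl⟩ := γ.surjective x
    revert hx
    refine Fin.addCases (fun i => ?_) (fun i => ?_) y
    · intro h
      exact absurd ⟨i, rfl⟩ h
    · intro _
      exact ⟨i, rfl⟩

lemma shuffle_ext {γ γ' : Perm (Fin (l + r))} (h : Shuffle γ) (h' : Shuffle γ')
    (he : (fun i : Fin l => γ (Fin.castAdd r i)) = fun i => γ' (Fin.castAdd r i)) : γ = γ' := by
  have hr : (fun i : Fin r => γ (Fin.natAdd l i)) = fun i => γ' (Fin.natAdd l i) := by
    rw [← StrictMono.range_inj h.2 h'.2, range_right, range_right, he]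
  exact perm_ext (fun i => congrFun he i) (fun i => congrFun hr i)

lemma exists_shuffle (f : Fin l → Fin (l + r)) (hf : StrictMono f) :
    ∃ γ : Perm (Fin (l + r)), Shuffle γ ∧ ∀ i, γ (Fin.castAdd r i) = f i := by
  classical
  have hc : ((univ.image f)ᶜ : Finset (Fin (l + r))).card = r := by
    rw [card_compl, card_image_of_injective _ hf.injective]
    simp
  let e := ((univ.image f)ᶜ : Finset (Fin (l + r))).orderEmbOfFin hc
  have hinj : Function.Injective (Fin.append f e) := by
    intro x y
    refine Fin.addCases (fun i => ?_) (fun i => ?_) x <;>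
      refine Fin.addCases (fun j => ?_) (fun j => ?_) y
    · intro h
      simp at h
      rw [hf.injective h]
    · intro h
      simp at h
      have := Finset.orderEmbOfFin_mem _ hc j
      rw [mem_compl] at this
      exact absurd (mem_image.2 ⟨i, mem_univ _, h⟩) this
    · intro h
      simp at h
      have := Finset.orderEmbOfFin_mem _ hc i
      rw [mem_compl] at this
      exact absurd (mem_image.2 ⟨j, mem_univ _, h.symm⟩) this
    · intro h
      simp at h
      rw [h]
  refine ⟨Equiv.ofBijective _ (Finite.injective_iff_bijective.1 hinj), ⟨?_, ?_⟩, ?_⟩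
  · intro i j hij
    simp
    exact hf hij
  · intro i j hij
    simp
    exact hij
  · intro i
    simp

/-- The sublattice of increasing sequences. -/
def incLattice (l r : ℕ) : Sublattice (Fin l → Fin (l + r)) where
  carrier := {f | StrictMono f}
  supClosed' := by
    intro f hf g hg i j hij
    exact max_lt_max (hf hij) (hg hij)
  infClosed' := by
    intro f hf g hg i j hij
    exact min_lt_min (hf hij) (hg hij)

noncomputable instance : Fintype (incLattice l r) := Fintype.ofFinite _

/-- The shuffle with a given left block. -/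
noncomputable def shuf (f : incLattice l r) : Perm (Fin (l + r)) :=
  (exists_shuffle f.1 f.2).choose

lemma shuf_spec (f : incLattice l r) : Shuffle (shuf f) :=
  (exists_shuffle f.1 f.2).choose_spec.1

@[simp] lemma shuf_left (f : incLattice l r) (i : Fin l) :
    shuf f (Fin.castAdd r i) = f.1 i := (exists_shuffle f.1 f.2).choose_spec.2 i

/-- The permutation with data `(f, ρ, τ)`. -/
noncomputable def glue (x : incLattice l r × Perm (Fin l) × Perm (Fin r)) : Perm (Fin (l + r)) :=
  shuf x.1 * block x.2.1 x.2.2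

lemma glue_bijective : Function.Bijective (glue (l := l) (r := r)) := by
  constructor
  · rintro ⟨f, ρ, τ⟩ ⟨f', ρ', τ'⟩ h
    have h1 : ∀ i, f.1 (ρ i) = f'.1 (ρ' i) := by
      intro i
      have := congrArg (fun a : Perm (Fin (l + r)) => a (Fin.castAdd r i)) h
      simpa [glue] using this
    have hff : f.1 = f'.1 := by
      rw [← StrictMono.range_inj f.2 f'.2]
      ext x
      constructor
      · rintro ⟨i, rfl⟩
        exact ⟨ρ' (ρ.symm i), by rw [← h1]; simp⟩
      · rintro ⟨i, rfl⟩
        exact ⟨ρ (ρ'.symm i), by rw [h1]; simp⟩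
    have hf : f = f' := Subtype.ext hff
    subst hf
    have hb : block ρ τ = block ρ' τ' := by
      have : shuf f * block ρ τ = shuf f * block ρ' τ' := h
      exact mul_left_cancel this
    have h2 : ρ = ρ' := by
      ext i
      have := congrArg (fun a : Perm (Fin (l + r)) => a (Fin.castAdd r i)) hb
      simp only [block_left] at this
      rw [Fin.castAdd_injective _ _ this]
    have h3 : τ = τ' := by
      ext i
      have := congrArg (fun a : Perm (Fin (l + r)) => a (Fin.natAdd l i)) hb
      simp only [block_right] at this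
      rw [Fin.natAdd_injective _ _ this]
    rw [h2, h3]
  · intro a
    let σ := Tuple.sort (fun i : Fin l => a (Fin.castAdd r i))
    let σ' := Tuple.sort (fun i : Fin r => a (Fin.natAdd l i))
    have hs : Shuffle (a * block σ σ') := by
      constructor
      · have hm : Monotone ((fun i : Fin l => a (Fin.castAdd r i)) ∘ σ) := Tuple.monotone_sort _
        have hi : Function.Injective (fun i : Fin l => (a * block σ σ') (Fin.castAdd r i)) :=
          (a * block σ σ').injective.comp (Fin.castAdd_injective _ _)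
        refine Monotone.strictMono_of_injective ?_ hi
        intro i j hij
        simpa using hm hij
      · have hm : Monotone ((fun i : Fin r => a (Fin.natAdd l i)) ∘ σ') := Tuple.monotone_sort _
        have hi : Function.Injective (fun i : Fin r => (a * block σ σ') (Fin.natAdd l i)) :=
          (a * block σ σ').injective.comp (Fin.natAdd_injective _ _)
        refine Monotone.strictMono_of_injective ?_ hi
        intro i j hij
        simpa using hm hij
    refine ⟨(⟨fun i => (a * block σ σ') (Fin.castAdd r i), hs.1⟩, σ⁻¹, σ'⁻¹), ?_⟩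
    have : shuf ⟨fun i => (a * block σ σ') (Fin.castAdd r i), hs.1⟩ = a * block σ σ' := by
      apply shuffle_ext (shuf_spec _) hs
      funext i
      rw [shuf_left]
    unfold glue
    simp only
    rw [this, mul_assoc, block_mul, mul_inv_cancel, mul_inv_cancel, block_one, mul_one]

lemma sum_glue (F : Perm (Fin (l + r)) → ℝ) :
    ∑ a, F a = ∑ f : incLattice l r, ∑ ρ : Perm (Fin l), ∑ τ : Perm (Fin r), F (glue (f, ρ, τ)) := by
  rw [← (Function.Bijective.sum_comp glue_bijective F), Fintype.sum_prod_type]
  refine sum_congr rfl fun f _ => ?_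
  rw [Fintype.sum_prod_type]

/-! ### Monotonicity -/

lemma swap_strictMono {m N : ℕ} {g : Fin m → Fin N} (hg : StrictMono g) {x y : Fin N}
    (hxy : x.1 + 1 = y.1) (h : ¬(x ∈ Set.range g ∧ y ∈ Set.range g)) :
    StrictMono (fun i => swap x y (g i)) := by
  intro a b hab
  have h1 := hg hab
  rw [Fin.lt_def] at h1 ⊢
  simp only [swap_apply_def]
  by_cases hax : g a = x
  · by_cases hby : g b = y
    · exact absurd ⟨⟨a, hax⟩, ⟨b, hby⟩⟩ h
    · have h2 : (g b).1 ≠ y.1 := fun e => hby (Fin.ext e)
      have h3 : g b ≠ x := by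
        intro e; rw [← e] at hax; rw [hax] at h1; omega
      rw [if_pos hax, if_neg h3, if_neg hby]
      rw [hax] at h1
      omega
  · by_cases hay : g a = y
    · have h3 : g b ≠ x := by
        intro e; rw [e, hay] at h1; omega
      have h4 : g b ≠ y := by
        intro e; rw [e, hay] at h1; omega
      rw [if_neg hax, if_pos hay, if_neg h3, if_neg h4]
      rw [hay] at h1
      omega
    · rw [if_neg hax, if_neg hay]
      by_cases hbx : g b = x
      · rw [if_pos hbx]
        rw [hbx] at h1
        omega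
      · rw [if_neg hbx]
        by_cases hby : g b = y
        · rw [if_pos hby]
          have h2 : (g a).1 ≠ x.1 := fun e => hax (Fin.ext e)
          rw [hby] at h1
          omega
        · rw [if_neg hby]
          exact h1

lemma shuf_step (f f' : incLattice l r) {x y : Fin (l + r)} (hxy : x.1 + 1 = y.1)
    (hy : y ∈ Set.range f'.1) (hx : x ∉ Set.range f'.1)
    (hf : ∀ i, f.1 i = swap x y (f'.1 i)) : shuf f = swap x y * shuf f' := by
  apply shuffle_ext (shuf_spec _)
  · constructor
    · have := swap_strictMono f'.2 hxy (fun h => hx h.1)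
      simpa using this
    · have h := (shuf_spec f').2
      have h2 := swap_strictMono h hxy (by
        rintro ⟨_, h3⟩
        rw [range_right] at h3
        apply h3
        obtain ⟨i, hi⟩ := hy
        exact ⟨i, by simpa using hi⟩)
      simpa using h2
  · funext i
    simp [hf]

lemma glue_step {F : Perm (Fin (l + r)) → ℝ} (hF : UpMono F) (f f' : incLattice l r)
    {x y : Fin (l + r)} (hxy : x.1 + 1 = y.1)
    (hy : y ∈ Set.range f'.1) (hx : x ∉ Set.range f'.1)
    (hf : ∀ i, f.1 i = swap x y (f'.1 i)) (ρ : Perm (Fin l)) (τ : Perm (Fin r)) :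
    F (glue (f', ρ, τ)) ≤ F (glue (f, ρ, τ)) := by
  have h1 : glue (f, ρ, τ) = swap x y * glue (f', ρ, τ) := by
    unfold glue
    simp only
    rw [shuf_step f f' hxy hy hx hf, mul_assoc]
  rw [h1]
  apply hF
  · rw [Fin.lt_def]; omega
  · obtain ⟨i, hi⟩ := hy
    have hyy : (glue (f', ρ, τ))⁻¹ y = Fin.castAdd r (ρ⁻¹ i) := by
      rw [Perm.inv_eq_iff_eq]
      simp [glue, hi]
    have hxx : ∃ j : Fin r, (glue (f', ρ, τ))⁻¹ x = Fin.natAdd l j := by
      have : x ∈ Set.range (fun i : Fin r => shuf f' (Fin.natAdd l i)) := by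
        rw [range_right]
        rintro ⟨i, hi⟩
        exact hx ⟨i, by simpa using hi⟩
      obtain ⟨j, hj⟩ := this
      refine ⟨τ⁻¹ j, ?_⟩
      rw [Perm.inv_eq_iff_eq]
      simp only [glue, Perm.coe_mul, Function.comp_apply, block_right]
      rw [show τ (τ⁻¹ j) = j from (Equiv.eq_symm_apply τ).mp rfl]
      exact hj.symm
    obtain ⟨j, hj⟩ := hxx
    rw [hyy, hj, Fin.lt_def]
    simp
    omega

lemma glue_anti {F : Perm (Fin (l + r)) → ℝ} (hF : UpMono F) (ρ : Perm (Fin l))
    (τ : Perm (Fin r)) : ∀ (N : ℕ) (f f' : incLattice l r), f ≤ f' →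
      (∑ i, (f'.1 i).1) ≤ N → F (glue (f', ρ, τ)) ≤ F (glue (f, ρ, τ)) := by
  intro N
  induction N with
  | zero =>
    intro f f' hff hN
    have : f = f' := by
      apply Subtype.ext
      funext i
      apply Fin.ext
      have h1 : (f'.1 i).1 = 0 := by
        have := Finset.single_le_sum (f := fun i => (f'.1 i).1) (fun i _ => Nat.zero_le _)
          (mem_univ i)
        omega
      have h2 : (f.1 i).1 ≤ (f'.1 i).1 := hff i
      omega
    rw [this]
  | succ N ih =>
    intro f f' hff hN
    by_cases he : f = f'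
    · rw [he]
    have hex : ∃ i, f.1 i < f'.1 i := by
      by_contra hcon
      push Not at hcon
      apply he
      apply Subtype.ext
      funext i
      exact le_antisymm (hff i) (hcon i)
    classical
    let S : Finset (Fin l) := univ.filter (fun i => f.1 i < f'.1 i)
    have hS : S.Nonempty := by
      obtain ⟨i, hi⟩ := hex
      exact ⟨i, by simp [S, hi]⟩
    let i := S.min' hS
    have hi : f.1 i < f'.1 i := by
      have := S.min'_mem hS
      simpa [S] using this
    have hmin : ∀ j, j < i → f.1 j = f'.1 j := by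
      intro j hj
      by_contra hne
      have hlt : f.1 j < f'.1 j := lt_of_le_of_ne (hff j) hne
      have : i ≤ j := S.min'_le j (by simp [S, hlt])
      exact absurd hj (not_lt.2 this)
    have hi' : (f.1 i).1 < (f'.1 i).1 := hi
    let x : Fin (l + r) := ⟨(f'.1 i).1 - 1, by omega⟩
    have hxy : x.1 + 1 = (f'.1 i).1 := by
      simp only [x]
      omega
    have hx : x ∉ Set.range f'.1 := by
      rintro ⟨j, hj⟩
      have hji : j < i := by
        rw [← f'.2.lt_iff_lt, hj, Fin.lt_def]
        omega
      have h1 := hmin j hji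
      have h2 : f.1 j < f.1 i := f.2 hji
      rw [h1, hj, Fin.lt_def] at h2
      omega
    have hsm := swap_strictMono f'.2 hxy (fun h => hx h.1)
    let g : incLattice l r := ⟨fun k => swap x (f'.1 i) (f'.1 k), hsm⟩
    have hg1 : ∀ k, k ≠ i → g.1 k = f'.1 k := by
      intro k hk
      change swap x (f'.1 i) (f'.1 k) = f'.1 k
      apply swap_apply_of_ne_of_ne
      · intro h
        exact hx ⟨k, h⟩
      · intro h
        exact hk (f'.2.injective h)
    have hg2 : g.1 i = x := by
      change swap x (f'.1 i) (f'.1 i) = x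
      exact swap_apply_right _ _
    have hstep := glue_step hF g f' hxy ⟨i, rfl⟩ hx (fun k => rfl) ρ τ
    refine hstep.trans (ih f g ?_ ?_)
    · intro k
      by_cases hk : k = i
      · rw [hk]
        change f.1 i ≤ g.1 i
        rw [hg2, Fin.le_def]
        omega
      · change f.1 k ≤ g.1 k
        rw [hg1 k hk]
        exact hff k
    · have hlt : ∑ k, (g.1 k).1 < ∑ k, (f'.1 k).1 := by
        apply sum_lt_sum
        · intro k _
          by_cases hk : k = i
          · rw [hk, hg2]; omega
          · rw [hg1 k hk]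
        · exact ⟨i, mem_univ _, by rw [hg2]; omega⟩
      omega

lemma upMono_left {F : Perm (Fin (l + r)) → ℝ} (hF : UpMono F) (f : incLattice l r)
    (τ : Perm (Fin r)) : UpMono (fun ρ : Perm (Fin l) => F (glue (f, ρ, τ))) := by
  intro a i j hij hinv
  have h1 : glue (f, swap i j * a, τ) = swap (f.1 i) (f.1 j) * glue (f, a, τ) := by
    apply perm_ext
    · intro k
      simp only [glue, Perm.coe_mul, Function.comp_apply, block_left, shuf_left]
      by_cases h : a k = i
      · rw [h, swap_apply_left, swap_apply_left]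
      by_cases h' : a k = j
      · rw [h', swap_apply_right, swap_apply_right]
      rw [swap_apply_of_ne_of_ne h h', swap_apply_of_ne_of_ne]
      · exact fun e => h (f.2.injective e)
      · exact fun e => h' (f.2.injective e)
    · intro k
      simp only [glue, Perm.coe_mul, Function.comp_apply, block_right]
      rw [swap_apply_of_ne_of_ne]
      · rw [← shuf_left]
        intro e
        have := congrArg Fin.val ((shuf f).injective e)
        simp at this
        omega
      · rw [← shuf_left]
        intro e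
        have := congrArg Fin.val ((shuf f).injective e)
        simp at this
        omega
  simp only
  rw [h1]
  apply hF
  · exact f.2 hij
  · have h2 : ∀ k, (glue (f, a, τ))⁻¹ (f.1 k) = Fin.castAdd r (a⁻¹ k) := by
      intro k
      rw [Perm.inv_eq_iff_eq]
      simp [glue]
    rw [h2, h2, Fin.lt_def]
    exact hinv

lemma upMono_right {F : Perm (Fin (l + r)) → ℝ} (hF : UpMono F) (f : incLattice l r)
    (ρ : Perm (Fin l)) : UpMono (fun τ : Perm (Fin r) => F (glue (f, ρ, τ))) := by
  intro a i j hij hinv
  have h1 : glue (f, ρ, swap i j * a) =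
      swap (shuf f (Fin.natAdd l i)) (shuf f (Fin.natAdd l j)) * glue (f, ρ, a) := by
    apply perm_ext
    · intro k
      simp only [glue, Perm.coe_mul, Function.comp_apply, block_left]
      rw [swap_apply_of_ne_of_ne]
      · intro e
        have := congrArg Fin.val ((shuf f).injective e)
        simp at this
        omega
      · intro e
        have := congrArg Fin.val ((shuf f).injective e)
        simp at this
        omega
    · intro k
      simp only [glue, Perm.coe_mul, Function.comp_apply, block_right]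
      by_cases h : a k = i
      · rw [h, swap_apply_left, swap_apply_left]
      by_cases h' : a k = j
      · rw [h', swap_apply_right, swap_apply_right]
      rw [swap_apply_of_ne_of_ne h h', swap_apply_of_ne_of_ne]
      · exact fun e => h (Fin.natAdd_injective _ _ ((shuf f).injective e))
      · exact fun e => h' (Fin.natAdd_injective _ _ ((shuf f).injective e))
  simp only
  rw [h1]
  apply hF
  · exact (shuf_spec f).2 hij
  · have h2 : ∀ k, (glue (f, ρ, a))⁻¹ (shuf f (Fin.natAdd l k)) = Fin.natAdd l (a⁻¹ k) := by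
      intro k
      rw [Perm.inv_eq_iff_eq]
      simp [glue]
    rw [h2, h2, Fin.lt_def]
    simp only [Fin.val_natAdd]
    have : (a⁻¹ j).1 < (a⁻¹ i).1 := hinv
    omega

lemma upMono_sum {n : ℕ} {ι : Type*} (s : Finset ι) (F : ι → Perm (Fin n) → ℝ)
    (h : ∀ i ∈ s, UpMono (F i)) : UpMono (fun a => ∑ i ∈ s, F i a) := by
  intro a i j hij hinv
  exact sum_le_sum fun k hk => h k hk a i j hij hinv

/-- The two patterns together. -/
lemma pa_fibre (hl : PAf (fun _ : Perm (Fin l) => (1 : ℝ)))
    (hr : PAf (fun _ : Perm (Fin r) => (1 : ℝ))) {F G : Perm (Fin (l + r)) → ℝ}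
    (hF : UpMono F) (hG : UpMono G) (hF0 : ∀ a, 0 ≤ F a) (hG0 : ∀ a, 0 ≤ G a)
    (f : incLattice l r) :
    (∑ ρ : Perm (Fin l), ∑ τ : Perm (Fin r), F (glue (f, ρ, τ))) *
      (∑ ρ : Perm (Fin l), ∑ τ : Perm (Fin r), G (glue (f, ρ, τ))) ≤
    (∑ _ρ : Perm (Fin l), ∑ _τ : Perm (Fin r), (1 : ℝ)) *
      ∑ ρ : Perm (Fin l), ∑ τ : Perm (Fin r), F (glue (f, ρ, τ)) * G (glue (f, ρ, τ)) := by
  have h1 := hl (fun ρ => ∑ τ : Perm (Fin r), F (glue (f, ρ, τ)))
    (fun ρ => ∑ τ : Perm (Fin r), G (glue (f, ρ, τ)))
    (upMono_sum _ _ fun τ _ => upMono_left hF f τ)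
    (upMono_sum _ _ fun τ _ => upMono_left hG f τ)
    (fun ρ => sum_nonneg fun τ _ => hF0 _) (fun ρ => sum_nonneg fun τ _ => hG0 _)
  simp only [one_mul] at h1
  refine h1.trans ?_
  have h2 : ∀ ρ : Perm (Fin l), (∑ τ : Perm (Fin r), F (glue (f, ρ, τ))) *
      (∑ τ : Perm (Fin r), G (glue (f, ρ, τ))) ≤ (∑ _τ : Perm (Fin r), (1 : ℝ)) *
        ∑ τ : Perm (Fin r), F (glue (f, ρ, τ)) * G (glue (f, ρ, τ)) := by
    intro ρ
    have := hr (fun τ => F (glue (f, ρ, τ))) (fun τ => G (glue (f, ρ, τ)))
      (upMono_right hF f ρ) (upMono_right hG f ρ) (fun _ => hF0 _) (fun _ => hG0 _)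
    simpa only [one_mul] using this
  calc (∑ _ρ : Perm (Fin l), (1 : ℝ)) * ∑ ρ : Perm (Fin l),
        (∑ τ : Perm (Fin r), F (glue (f, ρ, τ))) * (∑ τ : Perm (Fin r), G (glue (f, ρ, τ)))
      ≤ (∑ _ρ : Perm (Fin l), (1 : ℝ)) * ∑ ρ : Perm (Fin l), (∑ _τ : Perm (Fin r), (1 : ℝ)) *
        ∑ τ : Perm (Fin r), F (glue (f, ρ, τ)) * G (glue (f, ρ, τ)) := by
        apply mul_le_mul_of_nonneg_left (sum_le_sum fun ρ _ => h2 ρ)
        exact sum_nonneg fun _ _ => zero_le_one
    _ = _ := by
        rw [← mul_sum]
        simp only [sum_const, card_univ, nsmul_eq_mul, mul_one]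
        ring

/-- **Main gluing statement.** -/
theorem pa_glue (hl : PAf (fun _ : Perm (Fin l) => (1 : ℝ)))
    (hr : PAf (fun _ : Perm (Fin r) => (1 : ℝ))) (g : Fin (l + r) → ℝ) (hg : ∀ x, 0 ≤ g x) :
    PAf (fun a : Perm (Fin (l + r)) => ∏ k : Fin l, g (a (Fin.castAdd r k))) := by
  intro F G hF hG hF0 hG0
  let ν : incLattice l r → ℝ := fun f => ∏ k, g (f.1 k)
  have hν0 : ∀ f, 0 ≤ ν f := fun f => prod_nonneg fun k _ => hg _
  have hw : ∀ f : incLattice l r, ∀ ρ : Perm (Fin l), ∀ τ : Perm (Fin r),
      ∏ k : Fin l, g (glue (f, ρ, τ) (Fin.castAdd r k)) = ν f := by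
    intro f ρ τ
    simp only [glue, Perm.coe_mul, Function.comp_apply, block_left, shuf_left, ν]
    exact Equiv.prod_comp ρ (fun k => g (f.1 k))
  have hsum : ∀ H : Perm (Fin (l + r)) → ℝ,
      ∑ a : Perm (Fin (l + r)), (∏ k : Fin l, g (a (Fin.castAdd r k))) * H a =
        ∑ f : incLattice l r, ν f *
          ∑ ρ : Perm (Fin l), ∑ τ : Perm (Fin r), H (glue (f, ρ, τ)) := by
    intro H
    rw [sum_glue]
    refine sum_congr rfl fun f _ => ?_
    rw [mul_sum]
    refine sum_congr rfl fun ρ _ => ?_
    rw [mul_sum]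
    refine sum_congr rfl fun τ _ => ?_
    rw [hw]
  have hsum1 : ∑ a : Perm (Fin (l + r)), (∏ k : Fin l, g (a (Fin.castAdd r k))) =
        ∑ f : incLattice l r, ν f * ∑ _ρ : Perm (Fin l), ∑ _τ : Perm (Fin r), (1 : ℝ) := by
    have := hsum (fun _ => 1)
    simpa only [mul_one] using this
  rw [hsum F, hsum G, hsum (fun a => F a * G a), hsum1]
  let NF : incLattice l r → ℝ := fun f => ∑ ρ : Perm (Fin l), ∑ τ : Perm (Fin r), F (glue (f, ρ, τ))
  let NG : incLattice l r → ℝ := fun f => ∑ ρ : Perm (Fin l), ∑ τ : Perm (Fin r), G (glue (f, ρ, τ))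
  have hfkg : (∑ f, ν f * NF f) * (∑ f, ν f * NG f) ≤
      (∑ f, ν f) * ∑ f, ν f * (NF f * NG f) := by
    have := fkg (α := (incLattice l r)ᵒᵈ) (β := ℝ) (fun f => NF (OrderDual.ofDual f))
      (fun f => NG (OrderDual.ofDual f)) (fun f => ν (OrderDual.ofDual f))
      (fun f => hν0 _) (fun f => sum_nonneg fun _ _ => sum_nonneg fun _ _ => hF0 _)
      (fun f => sum_nonneg fun _ _ => sum_nonneg fun _ _ => hG0 _)
      (fun f f' hff => sum_le_sum fun ρ _ => sum_le_sum fun τ _ =>
        glue_anti hF ρ τ _ _ _ hff le_rfl)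
      (fun f f' hff => sum_le_sum fun ρ _ => sum_le_sum fun τ _ =>
        glue_anti hG ρ τ _ _ _ hff le_rfl)
      (fun f f' => by
        apply le_of_eq
        change (∏ k, g ((OrderDual.ofDual f).1 k)) * (∏ k, g ((OrderDual.ofDual f').1 k)) =
          (∏ k, g (((OrderDual.ofDual f).1 ⊔ (OrderDual.ofDual f').1) k)) *
          (∏ k, g (((OrderDual.ofDual f).1 ⊓ (OrderDual.ofDual f').1) k))
        rw [← prod_mul_distrib, ← prod_mul_distrib]
        refine prod_congr rfl fun k _ => ?_
        simp only [Pi.sup_apply, Pi.inf_apply]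
        rcases le_total ((OrderDual.ofDual f).1 k) ((OrderDual.ofDual f').1 k) with h | h
        · rw [sup_eq_right.2 h, inf_eq_left.2 h, mul_comm]
        · rw [sup_eq_left.2 h, inf_eq_right.2 h])
    exact this
  refine hfkg.trans ?_
  have h2 : ∀ f, NF f * NG f ≤ (∑ _ρ : Perm (Fin l), ∑ _τ : Perm (Fin r), (1 : ℝ)) *
      ∑ ρ : Perm (Fin l), ∑ τ : Perm (Fin r), F (glue (f, ρ, τ)) * G (glue (f, ρ, τ)) :=
    fun f => pa_fibre hl hr hF hG hF0 hG0 f
  calc (∑ f, ν f) * ∑ f, ν f * (NF f * NG f)
      ≤ (∑ f, ν f) * ∑ f, ν f * ((∑ _ρ : Perm (Fin l), ∑ _τ : Perm (Fin r), (1 : ℝ)) *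
      ∑ ρ : Perm (Fin l), ∑ τ : Perm (Fin r), F (glue (f, ρ, τ)) * G (glue (f, ρ, τ))) := by
        apply mul_le_mul_of_nonneg_left _ (sum_nonneg fun f _ => hν0 f)
        exact sum_le_sum fun f _ => mul_le_mul_of_nonneg_left (h2 f) (hν0 f)
    _ = _ := by
        rw [← sum_mul]
        have : ∀ (c : ℝ) (h : incLattice l r → ℝ), ∑ f, ν f * (c * h f) = c * ∑ f, ν f * h f := by
          intro c h
          rw [mul_sum]
          exact sum_congr rfl fun f _ => by ring
        rw [this]
        ring

/-- The uniform measure is positively associated. -/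
theorem pa_uniform : ∀ n : ℕ, PAf (fun _ : Perm (Fin n) => (1 : ℝ)) := by
  have hsub : ∀ n : ℕ, n ≤ 1 → PAf (fun _ : Perm (Fin n) => (1 : ℝ)) := by
    intro n hn F G _ _ hF0 hG0
    have : Subsingleton (Fin n) := by
      interval_cases n <;> infer_instance
    have hu : (univ : Finset (Perm (Fin n))) = {1} := by
      ext a
      simp [Subsingleton.elim a 1]
    simp
  intro n
  induction n with
  | zero => exact hsub 0 (by norm_num)
  | succ n ih =>
    have := pa_glue (l := n) (r := 1) ih (hsub 1 le_rfl) (fun _ => 1) (fun _ => zero_le_one)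
    simpa using this

end Pool.Agent.Q231.Perm
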